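import Pool.Agent.helper62.MS.SpecD

/-!
# MP_07c750 (quantum unique ergodicity, weight 10), project HALF: blocks V (operator bound) and W (assembly), rows `hf:X`

THEOREM (HALF, helper84). At least half of the mass of every quantum limit of every closed hyperbolic surface is absolutely continuous. Page: /team-store/HALF_helper84.md. This file: PARTS V and VI.

NOTATION as in MS (SpecA .. SpecD): `c = pc β α` (wide), `c' = pc (st (-T) β) α` (narrow), `e = pk r c`, `e' = pk r c'`, `Wf`, `sy`, `qn`, `nn`, `iR`, `bq`. `F_f ψ = Wf (pk r f) ψ`. Cells in the variable `x`: width `ε`, centres `j ε`;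
`l = π/(4 ε r)`, `t1 = -log l = log (4 ε r/π)`, so `l → 0` like `1/r`, `ε` fixed. `B1` = forward boxes, `B = {g | g a_t1 ∈ B1}`, `D` ⊂ backward boxes, `Dp` = the enlarged backward boxes.

IDEA. `s` lives on `D`, `ψ = sy(conj e') s`. `F_c ψ = Σ_j F_(bj) ψ`; on the unstable segment `v ↦ g lM (l v)`, `0 ≤ v ≤ 1`, the function `e^(-iπjv/2) F_(bj) ψ` varies slowly (DVF: exact formula), only the `j` with `g nM (jε) ∈ Dp` matter (TAI), and `B` meets the segment in the set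
`{v | g a_t1 lM v ∈ B1}`, for which the leaf inequality LFI is known.

RULES. Row `hf:XXX`: file `Pool/Agent/<seat>/HF/XXX.lean`, `import Pool.Agent.helper62.HF.SpecV` (and what you need, e.g. the proofs of MS rows quoted), `set_option autoImplicit false`, namespace `Pool.Agent.HV`, `open Pool.Agent.RS Pool.Agent.MS`,
auxiliary lemmas prefixed `XXX_`, theorem `XXX_proof (h : YYY_stmt) .. : XXX_stmt` with the rows listed in `from` as hypotheses (MS rows: `(h : MS.SYB_stmt)` .., RS rows: `(h : RS.GFD_stmt)` ..; EN: `EN.XFL_stmt`; QU: `QU.DOB_stmt`). No straight double quotes, no convert / congr!.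
-/

open scoped MatrixGroups ContDiff Topology UpperHalfPlane ComplexConjugate
open UpperHalfPlane MeasureTheory Filter Set

namespace Pool.Agent.HV

open Pool.Agent.RS Pool.Agent.MS
open Pool.Agent.EN (XG MG mkX mkM fl pr)

/-- the leaf inequality of a set `B` -/
def LFI (B : Set SL(2, ℝ)) (K : ℝ) (J0 : ℕ) (Q : ℝ) : Prop := ∀ (g : SL(2, ℝ)) (J : Finset ℤ) (a : ℤ → ℂ), (J.card : ℝ) ≤ K → (∀ j ∈ J, |j| ≤ (J0 : ℤ)) →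
  ∫ v in Icc (0 : ℝ) 1 ∩ {v | g * lM v ∈ B}, ‖∑ j ∈ J, a j * Complex.exp (((Real.pi * j * v / 2 : ℝ) : ℂ) * Complex.I)‖ ^ 2 ≤ Q * ∑ j ∈ J, ‖a j‖ ^ 2

/-- the forward boxes -/
def FW (Γ : Subgroup SL(2, ℝ)) (A : Finset SL(2, ℝ)) (b v : ℝ) : Set SL(2, ℝ) := {g | ∃ y ∈ A, ∃ γ : Γ, bq b b (b * v) (y⁻¹ * (γ : SL(2, ℝ)) * g)}

/-- the backward boxes -/
def BW (Γ : Subgroup SL(2, ℝ)) (A : Finset SL(2, ℝ)) (b v : ℝ) : Set SL(2, ℝ) := {g | ∃ y ∈ A, ∃ γ : Γ, bq b (b * v) b (y⁻¹ * (γ : SL(2, ℝ)) * g)}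

/-- a smooth partition of unity on the line by translates -/
structure PU (χ : ℝ → ℝ) : Prop where
  sm : ContDiff ℝ ∞ χ
  rg : ∀ x, 0 ≤ χ x ∧ χ x ≤ 1
  sp : ∀ x, χ x ≠ 0 → |x| ≤ 1
  su : ∀ (J0 : ℕ) (x : ℝ), |x| ≤ J0 → ∑ j ∈ Finset.Icc (-(J0 : ℤ)) J0, χ (x - j) = 1

/-- the part of `β` in the cell `j` -/
noncomputable def bj (χ β : ℝ → ℝ) (ε : ℝ) (j : ℤ) (x : ℝ) : ℝ := β x * χ (x / ε - j)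

/-- the profile of the derivative -/
noncomputable def b1 (χ β : ℝ → ℝ) (ε : ℝ) (j : ℤ) (x : ℝ) : ℝ := Real.pi / 2 * (x / ε - j) * bj χ β ε j x

/-- the error profile of the derivative -/
noncomputable def ej (χ β α : ℝ → ℝ) (ε : ℝ) (j : ℤ) (z : ℍ) : ℂ := xm (pc (bj χ β ε j) α) z + kW (pc (bj χ β ε j) α) z

/-! ## Cells -/

/-- **Row PUX** (short; pure). `S = Real.smoothTransition`, `χ x = S (x + 1) - S x`: it is `S (x + 1)` on `[-1, 0]`, `1 - S x` on `[0, 1]` and `0` elsewhere; the sum telescopes to `S (x + J0 + 1) - S (x - J0) = 1`. -/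
def PUX_stmt : Prop := ∃ χ : ℝ → ℝ, PU χ

/-- **Row CLL** (the cells; short-medium). (3) `χ² ≤ χ`, `Σ_j χ(x/ε - j) ≤ 1` for every finite set of `j` (nonnegative terms, `PU.su` with a larger `J0`), `|x/ε - j| ≤ 1` if `χ(x/ε - j) ≠ 0`, and `(π/2)² ≤ 3`. (4) linearity: `Σ_j bj = β` (where `β ≠ 0`: `|x/ε| ≤ 1/(4ε) ≤ J0`); `Wf` is linear in the first argument
(continuous with compact support times continuous). -/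
def CLL_stmt : Prop := ∀ (χ β : ℝ → ℝ) (ε : ℝ), PU χ → SB (1 / 4) β → 0 < ε →
  (∀ j : ℤ, SB (1 / 4) (bj χ β ε j) ∧ SB (1 / 4) (b1 χ β ε j)) ∧
  (∀ (j : ℤ) (x : ℝ), bj χ β ε j x ≠ 0 → |x - j * ε| ≤ ε) ∧
  (∀ J0 : ℕ, ∑ j ∈ Finset.Icc (-(J0 : ℤ)) J0, ∫ x, bj χ β ε j x ^ 2 ≤ ∫ x, β x ^ 2 ∧ ∑ j ∈ Finset.Icc (-(J0 : ℤ)) J0, ∫ x, b1 χ β ε j x ^ 2 ≤ 3 * ∫ x, β x ^ 2) ∧
  ∀ (J0 : ℕ) (α : ℝ → ℝ) (r : ℝ) (ψ : ℍ → ℂ) (g : SL(2, ℝ)), 1 / 4 ≤ J0 * ε → SB (1 / 4) α → Continuous ψ →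
    ∑ j ∈ Finset.Icc (-(J0 : ℤ)) J0, Wf (pk r (pc (bj χ β ε j) α)) ψ g = Wf (pk r (pc β α)) ψ g

/-- **Row FRB** (frame bound for a general profile; short; from MS.NM3). If `∫ β² = 0` then `β = 0` and `pf = 0`. Otherwise NM3 for `β/√(∫ β²)` and `η' = η / (1 + ∫ β²)`; `Wf (pk r (pc (t β) α)) = t Wf (pk r (pc β α))`. -/
def FRB_stmt : Prop := ∀ (Γ : Subgroup SL(2, ℝ)) (F : Set ℍ) (α β : ℝ → ℝ), QU.SurfaceGroup Γ → QU.NiceDom Γ F → BA (1 / 4) α → SB (1 / 4) β →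
  ∀ η : ℝ, 0 < η → ∃ r0 : ℝ, 1 ≤ r0 ∧ ∀ r : ℝ, r0 ≤ r → ∀ u : ℍ → ℂ, InvC Γ u → r * qn F (pc β α) r u ≤ ((∫ x, β x ^ 2) + η) * nn F u

/-- **Row DVF** (the exact formula; short-medium; from RS.FL3, RS.FL0, RS.GLC). `g lM (l (v + h)) = (g lM (l v)) lM (l h)`: FL3 at `g lM (l v)` and the chain rule; `Wf` is linear in the first argument: with `f = pc (bj ..) α` the derivative of `Wf (pk r f) ψ (g lM (l v))` is `l ((1 + 2 i r) F_(xm f) + F_(kW f))`, and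
`2 i r l = i π/(2ε)`, `i F_(pc b1 α) = i (π/2)(F_(xm f)/ε - j F_f)`, `F_(ej) = F_(xm f) + F_(kW f)`. -/
def DVF_stmt : Prop := ∀ (χ β α : ℝ → ℝ) (ε r : ℝ) (j : ℤ) (ψ : ℍ → ℂ) (g : SL(2, ℝ)), PU χ → SB (1 / 4) β → SB (1 / 4) α → 0 < ε → 0 < r → Continuous ψ →
  TB (1 / 4) (ej χ β α ε j) ∧ ∀ v : ℝ, HasDerivAt (fun v : ℝ => Complex.exp (-(((Real.pi * j * v / 2 : ℝ) : ℂ) * Complex.I)) * Wf (pk r (pc (bj χ β ε j) α)) ψ (g * lM (Real.pi / (4 * ε * r) * v)))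
    (Complex.exp (-(((Real.pi * j * v / 2 : ℝ) : ℂ) * Complex.I)) * (Complex.I * Wf (pk r (pc (b1 χ β ε j) α)) ψ (g * lM (Real.pi / (4 * ε * r) * v)) +
      ((Real.pi / (4 * ε * r) : ℝ) : ℂ) * Wf (pk r (ej χ β α ε j)) ψ (g * lM (Real.pi / (4 * ε * r) * v)))) v

/-- **Row LFV** (the leaf inequality for slowly varying coefficients; short-medium; pure). `D j v = D j 0 + ∫_0^v D' j`. `|a + b|² ≤ 2|a|² + 2|b|²`; first part: the hypothesis for `a j = D j 0`. Second: for `v ∈ [0, 1]` `|∫_0^v Σ_j D' j u e_j(v) du|² ≤ ∫_0^1 |Σ_j D' j u e_j(v)|² du` (Cauchy-Schwarz),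
Fubini (continuous, bounded sets) and the hypothesis for `a j = D' j u` for every `u`. -/
def LFV_stmt : Prop := ∀ (Y : Set ℝ) (J : Finset ℤ) (Q : ℝ) (D D' : ℤ → ℝ → ℂ), MeasurableSet Y → Y ⊆ Icc 0 1 → 0 ≤ Q →
  (∀ a : ℤ → ℂ, ∫ v in Y, ‖∑ j ∈ J, a j * Complex.exp (((Real.pi * j * v / 2 : ℝ) : ℂ) * Complex.I)‖ ^ 2 ≤ Q * ∑ j ∈ J, ‖a j‖ ^ 2) →
  (∀ j v, HasDerivAt (D j) (D' j v) v) → (∀ j, Continuous (D' j)) →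
    ∫ v in Y, ‖∑ j ∈ J, D j v * Complex.exp (((Real.pi * j * v / 2 : ℝ) : ℂ) * Complex.I)‖ ^ 2 ≤ 2 * Q * (∑ j ∈ J, ‖D j 0‖ ^ 2 + ∫ u in (0 : ℝ)..1, ∑ j ∈ J, ‖D' j u‖ ^ 2)

/-- **Row OPL** (one segment; medium; from CLL, DVF, LFV, RS: GWB, GLC). `l = π/(4 ε r)`, `g' = g lM (l v)`. Let `J` be the set of the `|j| ≤ J0` with `g lM (l u) nM (jε) ∈ Dp` for some `u ∈ [0, 1]`. `F_c ψ(g') = Σ_(j ∈ J) F_j + Σ_(j ∉ J) F_j` (CLL), `F_j = F_(bj) ψ(g')`. Second sum: `|..|² ≤ (2 J0 + 1) Σ_(j ∉ J) |F_j|²`, and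
`j ∉ J` implies `g' nM (jε) ∉ Dp`. First sum: `F_j = e^(iπjv/2) D j v` with `D j v = e^(-iπjv/2) F_(bj) ψ(g lM (l v))` (DVF), LFV on `Y = {v ∈ [0, 1] | (g a_t1) lM v ∈ B1}` (measurable), the hypothesis for this `J`; `|D' j u|² ≤ 2 |F_(b1)|² + 2 l² |F_(ej)|²`. -/
def OPL_stmt : Prop := ∀ (Γ : Subgroup SL(2, ℝ)) (χ β α : ℝ → ℝ) (ε Q r : ℝ) (J0 : ℕ) (B1 Dp : Set SL(2, ℝ)) (ψ : ℍ → ℂ) (g : SL(2, ℝ)), QU.SurfaceGroup Γ → PU χ → SB (1 / 4) β → SB (1 / 4) α → 0 < ε → 0 < r → 1 / 4 ≤ J0 * ε → 0 ≤ Q →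
  MeasurableSet B1 → MeasurableSet Dp → InvC Γ ψ →
  (∀ (J : Finset ℤ) (a : ℤ → ℂ), (∀ j ∈ J, |j| ≤ (J0 : ℤ) ∧ ∃ u ∈ Icc (0 : ℝ) 1, g * lM (Real.pi / (4 * ε * r) * u) * nM (j * ε) ∈ Dp) →
    ∫ v in Icc (0 : ℝ) 1 ∩ {v | g * aM (Real.log (4 * ε * r / Real.pi)) * lM v ∈ B1}, ‖∑ j ∈ J, a j * Complex.exp (((Real.pi * j * v / 2 : ℝ) : ℂ) * Complex.I)‖ ^ 2 ≤ Q * ∑ j ∈ J, ‖a j‖ ^ 2) →
    ∫ v in Icc (0 : ℝ) 1 ∩ {v | g * aM (Real.log (4 * ε * r / Real.pi)) * lM v ∈ B1}, ‖Wf (pk r (pc β α)) ψ (g * lM (Real.pi / (4 * ε * r) * v))‖ ^ 2 ≤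
      4 * Q * ∑ j ∈ Finset.Icc (-(J0 : ℤ)) J0, (‖Wf (pk r (pc (bj χ β ε j) α)) ψ g‖ ^ 2 + ∫ u in (0 : ℝ)..1, (2 * ‖Wf (pk r (pc (b1 χ β ε j) α)) ψ (g * lM (Real.pi / (4 * ε * r) * u))‖ ^ 2 +
          2 * (Real.pi / (4 * ε * r)) ^ 2 * ‖Wf (pk r (ej χ β α ε j)) ψ (g * lM (Real.pi / (4 * ε * r) * u))‖ ^ 2)) +
        2 * (2 * J0 + 1) * ∑ j ∈ Finset.Icc (-(J0 : ℤ)) J0, ∫ u in (0 : ℝ)..1,
          ({g' : SL(2, ℝ) | g' * nM (j * ε) ∉ Dp}.indicator (fun g' => ‖Wf (pk r (pc (bj χ β ε j) α)) ψ g'‖ ^ 2)) (g * lM (Real.pi / (4 * ε * r) * u))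

/-! ## Far from the diagonal -/

/-- **Row SCX** (Schur's test with a restricted kernel; short-medium; as MS.SCH, helper79/MS/SCH.lean; from RS: GLC, GMG, GLI, GRI, GFD, GPE, GWB). `Wf e' (sy ē v) h = ∫ v(h k) G(k) dk`, `G(k) = ∫ e'(z) conj e(k⁻¹ z) dz`; for `h ∈ D` only `k ∈ Z` contribute: `|..|² ≤ S ∫_Z |v(hk)|² |G(k)| dk`;
integrate over `dG F ∩ D ⊆ dG F`, Tonelli and GFD: `≤ S² ∫_(dG F) |v|²`. -/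
def SCX_stmt : Prop := ∀ (Γ : Subgroup SL(2, ℝ)) (F : Set ℍ) (e e' : ℍ → ℂ) (v : SL(2, ℝ) → ℂ) (D Z : Set SL(2, ℝ)) (S : ℝ), QU.SurfaceGroup Γ → QU.NiceDom Γ F →
  Continuous e → HasCompactSupport e → Continuous e' → HasCompactSupport e' → Measurable v → (∃ m : ℝ, ∀ g, ‖v g‖ ≤ m) → (∀ (γ : Γ) g, v ((γ : SL(2, ℝ)) * g) = v g) →
  MeasurableSet D → MeasurableSet Z → 0 ≤ S → (∀ h k : SL(2, ℝ), h ∈ D → v (h * k) ≠ 0 → ∫ z : ℍ, e' z * conj (e (k⁻¹ • z)) ≠ 0 → k ∈ Z) →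
  ∫⁻ k in Z, ENNReal.ofReal ‖∫ z : ℍ, e' z * conj (e (k⁻¹ • z))‖ ∂mG ≤ ENNReal.ofReal S →
    ∫ h in dG F ∩ D, ‖Wf e' (sy Γ F (fun z => conj (e z)) v) h‖ ^ 2 ∂mG ≤ S ^ 2 * iR F (fun g => ‖v g‖ ^ 2)

/-- **Row TAI** (the tail; medium; from SCX, MS: OSC, GKF, STB, RS: CV1, FL0, GLC, GMG, GLI). SCX with `e = pk r (pc (st (-T) β0) α0)`, `e' = pk r (pc β1 α)`, `v = s`. `G(k) = ∫ e'(z) conj e(k⁻¹ z) dz = conj (gk r (pc (st (-T) β0) α0) (pc β1 α) k⁻¹)` (substitution `z = k w`). If `G(k) ≠ 0` there is `w` with `e w ≠ 0`, `e' (k w) ≠ 0`; so the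
hypothesis gives `δ1 < |k10|`. `Z` = the set of the `k` with entries `≤ 3` (GKF; `k⁻¹` has the entries of `k` up to order and sign) and `δ1 < |k10|`, of finite measure; OSC: `|G| ≤ C e^(-T/2) / (e^(-T) r δ1)²` there. So `S = C'/r²` and `r² S² = C'²/r²`. -/
def TAI_stmt : Prop := ∀ (Γ : Subgroup SL(2, ℝ)) (F : Set ℍ) (β0 α0 β1 α : ℝ → ℝ) (T δ1 : ℝ), QU.SurfaceGroup Γ → QU.NiceDom Γ F → SB (1 / 4) β0 → SB (1 / 4) α0 → SB (1 / 4) β1 → SB (1 / 4) α → 0 ≤ T → 0 < δ1 →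
  ∃ C : ℝ, 0 < C ∧ ∀ (r : ℝ) (s : SL(2, ℝ) → ℂ) (D : Set SL(2, ℝ)), 1 ≤ r → Measurable s → (∃ m : ℝ, ∀ g, ‖s g‖ ≤ m) → (∀ (γ : Γ) g, s ((γ : SL(2, ℝ)) * g) = s g) → MeasurableSet D →
    (∀ (g k : SL(2, ℝ)) (w : ℍ), g ∈ D → s (g * k) ≠ 0 → pc (st (-T) β0) α0 w ≠ 0 → pc β1 α (k • w) ≠ 0 → δ1 < |k.1 1 0|) →
      r ^ 2 * ∫ g in dG F ∩ D, ‖Wf (pk r (pc β1 α)) (sy Γ F (fun z => conj (pk r (pc (st (-T) β0) α0) z)) s) g‖ ^ 2 ∂mG ≤ C / r ^ 2 * iR F (fun g => ‖s g‖ ^ 2)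

/-! ## The operator bound -/

/-- **Row OPB** (the operator bound; medium-long; from PUX, CLL, FRB, OPL, TAI, MS: NM3, SYB, STB, RS: TRV, CV1, FL0, GWB, GFD, GBD, GLC). Fix `χ` (PUX). `η1 = 1/(2 J0 + 1)`. For large `r`: FRB for the profiles `bj`, `b1`, `|j| ≤ J0`, with `η1`; NM3 for `st (-T) β` and `1/10`; `l ≤ l0`; `r l² K_j (2 J0 + 1) ≤ 1`, `K_j` from TRV for `ej` (DVF: `TB (1/4)`);
`2 (2 J0 + 1)² C_j / r² ≤ η`, `C_j` from TAI for `bj`, `δ1`. `ψ = sy(conj e') s ∈ InvC`, `r nn F ψ ≤ (11/10) iR ‖s‖²` (SYB with `κ = (11/10)/r`). For every `v`: `∫_(dG F ∩ B) ‖F_c ψ‖² = ∫_(dG F) 1_B(g lM(lv)) ‖F_c ψ(g lM(lv))‖² dg` (GFD, the function is invariant), average over `v ∈ [0, 1]`, Fubini;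
`g lM(lv) a_t1 = g a_t1 lM(v)` (GLC, `e^t1 l = 1`). OPL for every `g` (`l ≤ l0`, hypothesis with `g' = g a_t1`), then GFD again: `≤ 4 Q Σ_j (qn (bj) + 2 qn (b1) + 2 l² qn (ej)) + 2 (2 J0 + 1) Σ_j ∫_(dG F ∩ D_j) ‖F_(bj) ψ‖²`, `D_j = {g | g nM (jε) ∉ Dp}`. First sum (CLL (3), `∫ β² = 1`): `≤ (1 + 1 + 2 (3 + 1) + 2) nn ψ / r = 12 nn ψ / r`, so at most
`48 Q (11/10) / r² iR ‖s‖²`. Second: TAI; its hypothesis: let `g nM (jε) ∉ Dp`, `s (g k) ≠ 0` (so `g k ∈ D`), `pc (st (-T) β) α w ≠ 0` (`|w.re| ≤ e^(-T)/4`, `|log w.im| ≤ 1/4`: STB), `pc bj α (k w) ≠ 0` (`|Re (k w) - jε| ≤ ε` by CLL (2)); if `|k10| ≤ δ1` then `hloc` gives `g nM (jε) ∈ Dp`. -/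
def OPB_stmt : Prop := ∀ (Γ : Subgroup SL(2, ℝ)) (F : Set ℍ) (β α : ℝ → ℝ) (T ε δ1 l0 Q : ℝ) (J0 : ℕ) (B1 D Dp : Set SL(2, ℝ)), QU.SurfaceGroup Γ → QU.NiceDom Γ F → BB (1 / 4) β → BA (1 / 4) α → 0 ≤ T → 0 < ε → 0 < δ1 → 0 < l0 → 1 / 4 ≤ J0 * ε → 0 ≤ Q →
  MeasurableSet B1 → MeasurableSet Dp → (∀ (γ : Γ) (g : SL(2, ℝ)), (γ : SL(2, ℝ)) * g ∈ B1 ↔ g ∈ B1) → (∀ (γ : Γ) (g : SL(2, ℝ)), (γ : SL(2, ℝ)) * g ∈ Dp ↔ g ∈ Dp) →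
  (∀ (j : ℤ) (g k : SL(2, ℝ)) (w : ℍ), |j| ≤ (J0 : ℤ) → |k.1 1 0| ≤ δ1 → |w.re| ≤ Real.exp (-T) / 4 → |Real.log w.im| ≤ 1 / 4 → |(k • w).re - j * ε| ≤ ε → |Real.log (k • w).im| ≤ 1 / 4 → g * k ∈ D → g * nM (j * ε) ∈ Dp) →
  (∀ (l : ℝ) (g g' : SL(2, ℝ)) (J : Finset ℤ) (a : ℤ → ℂ), 0 ≤ l → l ≤ l0 → (∀ j ∈ J, |j| ≤ (J0 : ℤ) ∧ ∃ u ∈ Icc (0 : ℝ) 1, g * lM (l * u) * nM (j * ε) ∈ Dp) →
    ∫ v in Icc (0 : ℝ) 1 ∩ {v | g' * lM v ∈ B1}, ‖∑ j ∈ J, a j * Complex.exp (((Real.pi * j * v / 2 : ℝ) : ℂ) * Complex.I)‖ ^ 2 ≤ Q * ∑ j ∈ J, ‖a j‖ ^ 2) →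
  ∀ η : ℝ, 0 < η → ∃ r2 : ℝ, 1 ≤ r2 ∧ ∀ (r : ℝ) (s : SL(2, ℝ) → ℂ), r2 ≤ r → Measurable s → (∃ m : ℝ, ∀ g, ‖s g‖ ≤ m) → (∀ (γ : Γ) g, s ((γ : SL(2, ℝ)) * g) = s g) → (∀ g, s g ≠ 0 → g ∈ D) →
    r ^ 2 * ∫ g in dG F ∩ {g | g * aM (Real.log (4 * ε * r / Real.pi)) ∈ B1}, ‖Wf (pk r (pc β α)) (sy Γ F (fun z => conj (pk r (pc (st (-T) β) α) z)) s) g‖ ^ 2 ∂mG ≤ (64 * Q + η) * iR F (fun g => ‖s g‖ ^ 2)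

/-- **Row DUL** (duality; short-medium; from RS: GDU, GYN, GPE, GWB). `u = sy(ē) v ∈ InvC`, `X² = ∫_(dG F ∩ D) |Wf e' u|²`, `s0 = 1_D conj (Wf e' u)` (measurable, bounded, invariant). GDU (second part) for `f = e'`: `X² = ∫_(dG F) s0 Wf e' u = ∫_F w u`, `w = sy Γ F e' s0 ∈ InvC`; GDU for `f = ē`:
`∫_F u w = ∫_(dG F) v Wf ē w ≤ ‖v‖ (∫_(dG F ∩ B) |Wf ē w|²)^(1/2)` (`v` lives on `B`), `Wf ē w = conj (Wf e w̄)` (GWB), `w̄ = sy Γ F (conj e') (conj s0)` (`per` of the conjugate). Hypothesis: `X² ≤ ‖v‖ (κ ∫ |s0|²)^(1/2) = ‖v‖ √κ X`. (The frame bounds needed in GDU: any, GYN.) -/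
def DUL_stmt : Prop := ∀ (Γ : Subgroup SL(2, ℝ)) (F : Set ℍ) (e e' : ℍ → ℂ) (B D : Set SL(2, ℝ)) (κ : ℝ), QU.SurfaceGroup Γ → QU.NiceDom Γ F →
  Continuous e → HasCompactSupport e → Continuous e' → HasCompactSupport e' → MeasurableSet B → MeasurableSet D → (∀ (γ : Γ) (g : SL(2, ℝ)), (γ : SL(2, ℝ)) * g ∈ D ↔ g ∈ D) → 0 ≤ κ →
  (∀ s : SL(2, ℝ) → ℂ, Measurable s → (∃ m : ℝ, ∀ g, ‖s g‖ ≤ m) → (∀ (γ : Γ) g, s ((γ : SL(2, ℝ)) * g) = s g) → (∀ g, s g ≠ 0 → g ∈ D) →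
    ∫ g in dG F ∩ B, ‖Wf e (sy Γ F (fun z => conj (e' z)) s) g‖ ^ 2 ∂mG ≤ κ * iR F (fun g => ‖s g‖ ^ 2)) →
  ∀ v : SL(2, ℝ) → ℂ, Measurable v → (∃ m : ℝ, ∀ g, ‖v g‖ ≤ m) → (∀ g, v g ≠ 0 → g ∈ B) →
    ∫ h in dG F ∩ D, ‖Wf e' (sy Γ F (fun z => conj (e z)) v) h‖ ^ 2 ∂mG ≤ κ * iR F (fun g => ‖v g‖ ^ 2)

/-- **Row AS4** (AS1 with an operator bound in place of Schur's test; short-medium; from MS: SYB, REP, DUL, RS: GR2, GWB, GFD, FL0; the proof of helper9/MS/AS1.lean with DUL for SCH, `κ = Q/r²`). -/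
def AS4_stmt : Prop := ∀ (Γ : Subgroup SL(2, ℝ)) (F : Set ℍ) (c c' : ℍ → ℂ) (r s η Q : ℝ) (φ : ℍ → ℂ) (B D : Set SL(2, ℝ)), QU.SurfaceGroup Γ → QU.NiceDom Γ F →
  TB (1 / 4) c → TB (1 / 4) c' → 0 < r → 0 ≤ η → EigL Γ (1 / 4 + s ^ 2) φ → nn F φ = 1 →
  (∀ u : ℍ → ℂ, InvC Γ u → r * qn F c r u ≤ (1 + η) * nn F u) → (∀ u : ℍ → ℂ, InvC Γ u → r * qn F c' r u ≤ (1 + η) * nn F u) →
  MeasurableSet B → MeasurableSet D → (∀ (γ : Γ) (g : SL(2, ℝ)), (γ : SL(2, ℝ)) * g ∈ B ↔ g ∈ B) → (∀ (γ : Γ) (g : SL(2, ℝ)), (γ : SL(2, ℝ)) * g ∈ D ↔ g ∈ D) →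
  0 ≤ Q → (∀ w : SL(2, ℝ) → ℂ, Measurable w → (∃ m : ℝ, ∀ g, ‖w g‖ ≤ m) → (∀ (γ : Γ) g, w ((γ : SL(2, ℝ)) * g) = w g) → (∀ g, w g ≠ 0 → g ∈ D) →
    r ^ 2 * ∫ g in dG F ∩ B, ‖Wf (pk r c) (sy Γ F (fun z => conj (pk r c' z)) w) g‖ ^ 2 ∂mG ≤ Q * iR F (fun g => ‖w g‖ ^ 2)) →
    r * qn F c r φ * Real.sqrt (r * ∫ h in dG F ∩ D, ‖Wf (pk r c') φ h‖ ^ 2 ∂mG) ≤
      Real.sqrt (Q * (r * ∫ g in dG F ∩ B, ‖Wf (pk r c) φ g‖ ^ 2 ∂mG)) + (1 + η) * Real.sqrt (r * ∫ g in dG F \ B, ‖Wf (pk r c) φ g‖ ^ 2 ∂mG)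

/-! ## Geometry -/

/-- **Row LCG** (localisation; medium; pure matrices; from RS.GLC). `Ap` = the set of the `± y aM τ_i`, `y ∈ A`, `τ_i` the multiples of `b/10` in `[-1, 1]` (`C = 2 (20/b + 1)`; `-1` as an element of `SL(2, ℝ)`). Let `k = [[p, q], [c, d]]`, `ρ = b v/100`. `Im (k w) = Im w / |c w + d|²` and `|w| ≤ 13/10`, `|c| ≤ ρ ≤ 1/100 · 1/100`, so `3/4 ≤ |d| ≤ 13/10`. With the sign `σ` of `d`: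
`k = σ nM x aM τ lM ω`, `x = q/d`, `e^(-τ/2) = |d|` (`|τ| ≤ 0.58`), `ω = c/d`, `|ω| ≤ bv/75`. `k w = x + e^τ lM ω w`, `|lM ω w - w| = |ω w²/(ω w + 1)| ≤ bv/40`, so `|x - ξ| ≤ bv/100 + 1.78 (bv/100 + bv/40) ≤ 0.08 bv`. Let `q0 = y⁻¹ γ (g k)`, `bq b (bv) b q0`. `g nM ξ = γ⁻¹ y q0 k⁻¹ nM ξ = σ γ⁻¹ y q0 lM (-ω) aM (-τ) nM (ξ - x)`;
choose `|-τ - τ_i| ≤ b/10`, `κ = -τ - τ_i`: `= γ⁻¹ (σ y aM τ_i) (aM (-τ_i) q0 lM (-ω) aM τ_i) aM κ nM (ξ - x)`. Entries: `q0 lM (-ω)` satisfies `bq (1.1 b) (b v) (1.1 b)`; conjugation by `aM τ_i` multiplies the upper right entry by `e^(-τ_i) ≤ 1.9`, the lower left one by `e^(τ_i) ≤ 1.9`; `aM κ` changes the diagonal entries by `≤ 0.06 b`; `nM (ξ - x)`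
adds `≤ 0.09 bv` to the upper right entry and `≤ 0.1 b` to the lower right one. Everything is `≤ 4 b`, `4 b v`, `4 b`. -/
def LCG_stmt : Prop := ∃ b0 : ℝ, 0 < b0 ∧ b0 ≤ 1 / 100 ∧ ∀ b : ℝ, 0 < b → b ≤ b0 → ∃ C : ℝ, 0 < C ∧ ∀ (Γ : Subgroup SL(2, ℝ)) (A : Finset SL(2, ℝ)), ∃ Ap : Finset SL(2, ℝ), (Ap.card : ℝ) ≤ C * A.card ∧
  ∀ (v ξ : ℝ) (g k : SL(2, ℝ)) (w : ℍ), 0 < v → v ≤ 1 → |ξ| ≤ 1 → |k.1 1 0| ≤ b * v / 100 → |w.re| ≤ b * v / 100 → |Real.log w.im| ≤ 1 / 4 → |(k • w).re - ξ| ≤ b * v / 100 → |Real.log (k • w).im| ≤ 1 / 4 →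
    g * k ∈ BW Γ A b v → g * nM ξ ∈ BW Γ Ap (4 * b) v

/-- **Row CTG** (counting; medium; from RS.GLC, QU.DOB or as in helper41/MS/HD2.lean). For `y ∈ A`, `γ` let `J_(y,γ)` = the set of the `j ∈ J` with `q_j = y⁻¹ γ g lM (l u_j) nM (jε)`, `bq b (bv) b q_j`. For `j, j'` in it: `q_j⁻¹ q_j' = nM (-jε) lM (l (u' - u)) nM (j'ε)` has the upper right entry `(j' - j) ε - j j' ε² l (u' - u)`, and
`|(q_j⁻¹ q_j')01| = |q11 q'01 - q01 q'11| ≤ 3 bv`. So `|j' - j| ε ≤ 3 bv + l ≤ 4 bv`: `|J_(y,γ)| ≤ 4bv/ε + 1`. The number of `γ` with `J_(y,γ) ≠ ∅`: `y⁻¹ γ' γ⁻¹ y = q' (lM nM)⁻¹ (lM nM) q⁻¹` has entries `≤ 40` (`|jε| ≤ 1`, `l ≤ 1`): at most `N` such elements of `Γ`, uniformly in `y` (cocompactness and discreteness, as in HD2, LL.KFN). -/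
def CTG_stmt : Prop := ∀ Γ : Subgroup SL(2, ℝ), QU.SurfaceGroup Γ → ∃ N : ℝ, 1 ≤ N ∧ ∀ (b v ε l : ℝ) (A : Finset SL(2, ℝ)) (g : SL(2, ℝ)) (J : Finset ℤ), 0 < b → b ≤ 1 / 8 → 0 < v → v ≤ 1 → 0 < ε → 0 ≤ l → l ≤ b * v / 4 →
  (∀ j ∈ J, |(j : ℝ) * ε| ≤ 1 ∧ ∃ u ∈ Icc (0 : ℝ) 1, g * lM (l * u) * nM (j * ε) ∈ BW Γ A b v) → (J.card : ℝ) ≤ N * A.card * (4 * b * v / ε + 1)

/-- **Row BWM** (short; `Γ` countable: QU.DOB or as in MS rows; `bq` is closed). -/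
def BWM_stmt : Prop := ∀ (Γ : Subgroup SL(2, ℝ)) (A : Finset SL(2, ℝ)) (b v : ℝ), QU.SurfaceGroup Γ → MeasurableSet (BW Γ A b v) ∧ MeasurableSet (FW Γ A b v) ∧
  (∀ (γ : Γ) (g : SL(2, ℝ)), (γ : SL(2, ℝ)) * g ∈ BW Γ A b v ↔ g ∈ BW Γ A b v) ∧ ∀ (γ : Γ) (g : SL(2, ℝ)), (γ : SL(2, ℝ)) * g ∈ FW Γ A b v ↔ g ∈ FW Γ A b v

/-! ## Assembly -/

/-- **Row HM1** (the main estimate; medium-long; the proof of MS2 (helper27/MS/MS2.lean) with AS4, OPB in place of AS1, SS1, SS3; from MS: STB, NM3, EQ4, INW, BXM, AS4, OPB, LCG, CTG, BWM, RS: CV1, FL0, GFD, GBD, GWB, GLC). `a0 = min` of the `a0` of BXM and `b0/16` of LCG (and `1/1000`). Given `a`, `ε`: `b = 16 a`, `C3 ≥ 1` from BXM, `K ≥ 1` from INW, `C4` from LCG for `b`, `N` from CTG;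
`δ = min (a/4) (ε/200)²`, `Q = δ²/128`, `Λ = max (2 K C3/δ + 5) (N C4 (4 · 4b · 8 K C3/(π δ) + 1))`. Given `n`, `A`, `A'`: `v = e^(-n)`, `λ = 2 K C3 e^n/δ` (`= L0` in MS2), cell width `εc = π/(4 λ)` (`≤ b v/100` since `δ ≤ a/4`), `s ≥ 0` with `K C3 e^(-s) ≤ δ/2` and `e^(-s) ≤ b/100`, `T = n + s`, `δ1 = b v/100`, `J1 = ⌈1/(4 εc)⌉`
(`J1 εc ≥ 1/4`, `J1 εc ≤ 1/2`, `J1 ≤ ⌈Λ e^n⌉`), `l0 = b v`. `B1 = {Ψ ≠ 0} ⊆ FW Γ A (16a) v` (smaller set, LFI still holds). `D = {g | Ψ'(g a_(-n)) ≠ 0} ⊆ BW Γ A1 b v`, `A1 = {y aM n | y ∈ A'}` (as in MS2 (3)); `Dp = BW Γ Ap (4b) v` (LCG for `A1`): `hloc` is LCG with `ξ = jεc`; the last hypothesis of OPB: `|J| ≤ N C4 |A'| (16 b v/εc + 1) ≤ Λ |A'|` by CTG (`4b ≤ 1/8`), `|j| ≤ J1 ≤ ⌈Λ e^n⌉`, so LFI applies. OPB with `η = δ²/2`: `64 Q + η ≤ δ²`. `l = π/(4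 εc r) = λ/r = 1/X`, so `{g | g a_(log(4 εc r/π)) ∈ B1} = {g | Ψ(g a_t1) ≠ 0}`. (1), (2), (4) as in MS2 with `r² S1 S2` replaced by `δ²` (AS4). -/
def HM1_stmt : Prop := ∀ (Γ : Subgroup SL(2, ℝ)) (F : Set ℍ) (β α : ℝ → ℝ), QU.SurfaceGroup Γ → QU.NiceDom Γ F → BB (1 / 4) β → BA (1 / 8) α → ∃ a0 : ℝ, 0 < a0 ∧ ∀ a : ℝ, 0 < a → a ≤ a0 →
  ∀ ε : ℝ, 0 < ε → ε ≤ 1 → ∃ δ Λ Q : ℝ, 0 < δ ∧ δ ≤ ε ∧ 1 ≤ Λ ∧ 0 < Q ∧ ∀ (n : ℕ) (A A' : Finset SL(2, ℝ)), LFI (FW Γ A (16 * a) (Real.exp (-n))) (Λ * A'.card) ⌈Λ * Real.exp n⌉₊ Q →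
    ∃ (Ψ Ψ' : SL(2, ℝ) → ℝ) (r2 : ℝ), InvG Γ Ψ ∧ InvG Γ Ψ' ∧ (∀ g, 0 ≤ Ψ g ∧ Ψ g ≤ 1) ∧ (∀ g, 0 ≤ Ψ' g ∧ Ψ' g ≤ 1) ∧
      (∀ g, (∃ y ∈ A, ∃ γ : Γ, bq a a (a * Real.exp (-n)) (y⁻¹ * (γ : SL(2, ℝ)) * g)) → Ψ g = 1) ∧
      (∀ g, (∃ y ∈ A', ∃ γ : Γ, bq a a (a * Real.exp (-n)) (y⁻¹ * (γ : SL(2, ℝ)) * g)) → Ψ' g = 1) ∧ 1 ≤ r2 ∧
      ∀ (r m t : ℝ) (φ : ℍ → ℂ), r2 ≤ r → EigL Γ (1 / 4 + r ^ 2) φ → nn F φ = 1 → 0 ≤ m → m ≤ 2 → Real.sqrt (Real.log r) ≤ t → t ≤ Real.log r - Real.sqrt (Real.log r) →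
        (m - 4 * δ) * qn F (pc β α) r φ < iR F (fun g => (Ψ (g * aM t) + Ψ' (g * aM t)) * ‖pf β α r φ g‖ ^ 2) → m ≤ 1 + ε

/-- the covering property: mass `m` is covered by forward boxes with a small leaf constant relative to the number of the boxes which cover mass `m'` -/
def HC (Γ : Subgroup SL(2, ℝ)) (μ : Measure (XG Γ)) (m m' a : ℝ) : Prop := ∀ Λ δ : ℝ, 1 ≤ Λ → 0 < δ → ∃ (n : ℕ) (A A' : Finset SL(2, ℝ)),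
  m - δ ≤ μ.real {x | ∃ y ∈ A, ∃ h : SL(2, ℝ), bq a a (a * Real.exp (-n)) h ∧ x = mkX Γ (y * h)} ∧
  m' - δ ≤ μ.real {x | ∃ y ∈ A', ∃ h : SL(2, ℝ), bq a a (a * Real.exp (-n)) h ∧ x = mkX Γ (y * h)} ∧
  LFI (FW Γ A (16 * a) (Real.exp (-n))) (Λ * A'.card) ⌈Λ * Real.exp n⌉₊ δ

/-- **Row HLF** (short; from HM1, MS: MU, STB, EN.XFL, QU: DOM, DOB; the proof of helper62/ED/Core.lean with HM1 in place of MS2; `HC` for `Λ` and `min δ Q`: LFI is monotone in `Q`). -/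
def HLF_stmt : Prop := ∀ (Γ : Subgroup SL(2, ℝ)) (F : Set ℍ) (r : ℕ → ℝ) (φ : ℕ → ℍ → ℂ) (ν : Measure (MG Γ)), QU.SurfaceGroup Γ → IsFundamentalDomain Γ F (volume : Measure ℍ) → Tendsto r atTop atTop → (∀ k, Eig Γ (r k) (φ k)) →
  (∀ k, ∫ z in F, ‖φ k z‖ ^ 2 = 1) → IsFiniteMeasure ν → (∀ V : MG Γ → ℝ, Continuous V → Tendsto (fun k => ∫ z in F, V (mkM Γ z) * ‖φ k z‖ ^ 2) atTop (𝓝 (∫ x, V x ∂ν))) →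
  ∃ μ : Measure (XG Γ), IsProbabilityMeasure μ ∧ (∀ t, μ.map (fl Γ t) = μ) ∧ μ.map (pr Γ) = ν ∧ ∃ a0 : ℝ, 0 < a0 ∧ ∀ a : ℝ, 0 < a → a ≤ a0 → ∀ m m' : ℝ, 0 ≤ m → m ≤ 1 → 0 ≤ m' → m' ≤ 1 → HC Γ μ m m' a → m + m' ≤ 1

end Pool.Agent.HV
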