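import Pool.Agent.helper62.MS.All
import Pool.Agent.helper1.HF.DUL
import Pool.Agent.helper18.HF.HLF
import Pool.Agent.helper23.HF.AS4
import Pool.Agent.helper23.HF.CLL
import Pool.Agent.helper23.HF.DVF
import Pool.Agent.helper30.HF.TAI
import Pool.Agent.helper47.HF.PVG
import Pool.Agent.helper62.HF.CTG
import Pool.Agent.helper62.HF.HM1
import Pool.Agent.helper62.HF.LCG
import Pool.Agent.helper62.HF.LFV
import Pool.Agent.helper62.HF.OPL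
import Pool.Agent.helper62.HF.PUX
import Pool.Agent.helper62.HF.SCX
import Pool.Agent.helper78.HF.FRB
import Pool.Agent.helper87.HF.BWM
import Pool.Agent.helper95.HF.OPB

/-!
# MP_07c750, HALF: block V: assembly of the rows
-/

set_option autoImplicit false

namespace Pool.Agent.HV

theorem A_DUL : DUL_stmt := DUL_proof RS.A_GDU RS.A_GYN RS.A_GWB RS.A_GFD RS.A_GBD
theorem A_AS4 : AS4_stmt := AS4_proof MS.A_SYB MS.A_REP A_DUL RS.A_GLC RS.A_GR2 RS.A_GWB RS.A_GFD RS.A_GBD RS.A_GPE RS.A_FL0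
theorem A_PUX : PUX_stmt := PUX_proof
theorem A_CLL : CLL_stmt := CLL_proof RS.A_FL0 RS.A_CV1
theorem A_FRB : FRB_stmt := FRB_proof MS.A_NM3
theorem A_DVF : DVF_stmt := DVF_proof RS.A_FL3 RS.A_FL0 RS.A_GLC RS.A_CV1
theorem A_LFV : LFV_stmt := LFV_proof
theorem A_OPL : OPL_stmt := OPL_proof A_CLL A_DVF A_LFV RS.A_GLC RS.A_CV1 RS.A_FL0
theorem A_SCX : SCX_stmt := SCX_proof
theorem A_TAI : TAI_stmt := TAI_proof A_SCX MS.A_OSC MS.A_GKF MS.A_STB RS.A_CV1 RS.A_FL0 RS.A_GMG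
theorem A_OPB : OPB_stmt := OPB_proof A_PUX A_CLL A_FRB A_DVF A_OPL A_TAI MS.A_NM3 MS.A_SYB MS.A_STB RS.A_TRV RS.A_CV1 RS.A_FL0 RS.A_GFD RS.A_GBD RS.A_GLC
theorem A_LCG : LCG_stmt := LCG_proof
theorem A_CTG : CTG_stmt := CTG_proof
theorem A_BWM : BWM_stmt := BWM_proof
theorem A_HM1 : HM1_stmt := HM1_proof MS.A_STB MS.A_NM3 MS.A_EQ4 MS.A_INW MS.A_BXM A_AS4 A_OPB A_LCG A_CTG A_BWM RS.A_CV1 RS.A_FL0 RS.A_GFD RS.A_GBD RS.A_GLC
theorem A_HLF : HLF_stmt := HLF_proof A_HM1 MS.A_MU MS.A_STB EN.A_XFL QU.A_DOM QU.A_DOB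
theorem A_PVG : PVG_stmt := PVG_proof MS.A_STB MS.A_NM3 MS.A_EQ4 MS.A_INW A_AS4 A_OPB RS.A_CV1 RS.A_FL0 RS.A_GFD RS.A_GBD RS.A_GLC

end Pool.Agent.HV
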