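import Pool.Agent.helper62.HF.SpecV

/-!
# MP_07c750, project HALF / FD: the main estimate for general sets, row `hf:PVG`

Rules as in `SpecV` (namespace `Pool.Agent.HV`).
-/

open scoped MatrixGroups ContDiff Topology UpperHalfPlane ComplexConjugate
open UpperHalfPlane MeasureTheory Filter Set

namespace Pool.Agent.HV

open Pool.Agent.RS Pool.Agent.MS
open Pool.Agent.EN (XG MG mkX mkM fl pr)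

/-- **Row PVG** (the main estimate for general cutoffs; medium-long; = the steps (1), (2), (4) of the proof of MS2, helper27/MS/MS2.lean, with AS4 and OPB in place of AS1, SS1, SS3; from MS: STB, NM3, EQ4, INW, AS4, OPB, RS: CV1, FL0, GFD, GBD, GWB, GLC). `K` from INW. `T = n' + s`, `c' = pc (st (-T) β) α`,
`ε = π/(4 lam)`, `X = r/lam`, `t1 = log X = log (4 ε r/π)`, `B1 = {Ψ ≠ 0}`, `B = {g | Ψ (g a_t1) ≠ 0}`, `D = {g | Ψ' (g a_(-n')) ≠ 0}`, OPB with `η = δ²/2`: `64 Q + η ≤ δ²`. (1) INW from `t` to `t1`: error `K (C1 e^(-t) + (t1 + C1 X)/r) ≤ δ` for large `r` (`K C1/lam ≤ δ/2`). (2) INW from `s` to `t` for `Ψ'`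
(error `K (C2 e^(-s) + (t + C2 e^t)/r) ≤ δ` for large `r`), EQ4 with `T` for `Ψ' (g a_s)`. (4) AS4 with `Q' = 64 Q + η ≤ δ²`: `x + y ≥ m - 10 δ` and `(1-δ) √y ≤ √2 δ + (1+δ) √(1 + δ - x)`, so `m ≤ 1 + 10 δ + 100 √δ`. -/
def PVG_stmt : Prop := ∀ (Γ : Subgroup SL(2, ℝ)) (F : Set ℍ) (β α : ℝ → ℝ), QU.SurfaceGroup Γ → QU.NiceDom Γ F → BB (1 / 4) β → BA (1 / 8) α → ∃ K : ℝ, 1 ≤ K ∧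
  ∀ (δ C1 C2 n' s lam Q δ1 l0 : ℝ) (J0 : ℕ) (Ψ Ψa Ψn Ψl Ψ' Ψa' Ψn' Ψl' : SL(2, ℝ) → ℝ) (Dp : Set SL(2, ℝ)), 0 < δ → δ ≤ 1 / 100 → 1 ≤ C1 → 1 ≤ C2 → 0 ≤ n' → 0 ≤ s → K * C2 * Real.exp (-s) ≤ δ / 2 → 2 * K * C1 / δ ≤ lam →
    0 ≤ Q → 128 * Q ≤ δ ^ 2 → 0 < δ1 → 0 < l0 → 1 / 4 ≤ J0 * (Real.pi / (4 * lam)) →
    SF Γ Ψ Ψa Ψn Ψl → (∀ g, 0 ≤ Ψ g ∧ Ψ g ≤ 1) → (∀ g, |Ψn g| ≤ C1) → (∀ g, |Ψl g| ≤ C1) →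
    SF Γ Ψ' Ψa' Ψn' Ψl' → (∀ g, 0 ≤ Ψ' g ∧ Ψ' g ≤ 1) → (∀ g, |Ψn' g| ≤ C2) → (∀ g, |Ψl' g| ≤ C2) →
    MeasurableSet Dp → (∀ (γ : Γ) (g : SL(2, ℝ)), (γ : SL(2, ℝ)) * g ∈ Dp ↔ g ∈ Dp) →
    (∀ (j : ℤ) (g k : SL(2, ℝ)) (w : ℍ), |j| ≤ (J0 : ℤ) → |k.1 1 0| ≤ δ1 → |w.re| ≤ Real.exp (-(n' + s)) / 4 → |Real.log w.im| ≤ 1 / 4 → |(k • w).re - j * (Real.pi / (4 * lam))| ≤ Real.pi / (4 * lam) → |Real.log (k • w).im| ≤ 1 / 4 →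
      Ψ' (g * k * aM (-n')) ≠ 0 → g * nM (j * (Real.pi / (4 * lam))) ∈ Dp) →
    (∀ (l : ℝ) (g g' : SL(2, ℝ)) (J : Finset ℤ) (a : ℤ → ℂ), 0 ≤ l → l ≤ l0 → (∀ j ∈ J, |j| ≤ (J0 : ℤ) ∧ ∃ u ∈ Icc (0 : ℝ) 1, g * lM (l * u) * nM (j * (Real.pi / (4 * lam))) ∈ Dp) →
      ∫ v in Icc (0 : ℝ) 1 ∩ {v | g' * lM v ∈ {g | Ψ g ≠ 0}}, ‖∑ j ∈ J, a j * Complex.exp (((Real.pi * j * v / 2 : ℝ) : ℂ) * Complex.I)‖ ^ 2 ≤ Q * ∑ j ∈ J, ‖a j‖ ^ 2) →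
    ∃ r2 : ℝ, 1 ≤ r2 ∧ ∀ (r m t : ℝ) (φ : ℍ → ℂ), r2 ≤ r → EigL Γ (1 / 4 + r ^ 2) φ → nn F φ = 1 → 0 ≤ m → m ≤ 2 → Real.sqrt (Real.log r) ≤ t → t ≤ Real.log r - Real.sqrt (Real.log r) →
      (m - 4 * δ) * qn F (pc β α) r φ < iR F (fun g => (Ψ (g * aM t) + Ψ' (g * aM t)) * ‖pf β α r φ g‖ ^ 2) → m ≤ 1 + 10 * δ + 100 * Real.sqrt δ

end Pool.Agent.HV
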