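import Pool.Agent.helper62.HF.Glue

/-!
# MP_07c750, project HALF: the theorem from its blocks
-/

set_option autoImplicit false

open scoped MatrixGroups ContDiff Topology UpperHalfPlane ComplexConjugate
open UpperHalfPlane MeasureTheory Filter Set

namespace Pool.Agent.HV

open Pool.Agent.RS Pool.Agent.MS
open Pool.Agent.EN (XG MG mkX mkM fl pr)

theorem half (hERG : HF.ERG_stmt) (hHLF : HLF_stmt) (hNC2 : NC2_stmt) (hXFL : EN.XFL_stmt) (Γ : Subgroup SL(2, ℝ)) (F : Set ℍ) (r : ℕ → ℝ) (φ : ℕ → ℍ → ℂ) (ν : Measure (MG Γ))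
    (hΓ : QU.SurfaceGroup Γ) (hF : IsFundamentalDomain Γ F (volume : Measure ℍ)) (hr : Tendsto r atTop atTop) (hφ : ∀ k, Eig Γ (r k) (φ k))
    (hn : ∀ k, ∫ z in F, ‖φ k z‖ ^ 2 = 1) (hfin : IsFiniteMeasure ν)
    (hν : ∀ V : MG Γ → ℝ, Continuous V → Tendsto (fun k => ∫ z in F, V (mkM Γ z) * ‖φ k z‖ ^ 2) atTop (𝓝 (∫ x, V x ∂ν)))
    (N : Set (MG Γ)) (hN : MeasurableSet N) (hN0 : volume {z : ℍ | mkM Γ z ∈ N} = 0) : ν N ≤ 1 / 2 := by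
  obtain ⟨μ, hμ, hfl, hmap, H⟩ := low_half hERG hHLF Γ F r φ ν hΓ hF hr hφ hn hfin hν
  have hprc := (hXFL Γ).2.1
  have h1 : HF.LowJ Γ μ (1 / 2) (pr Γ ⁻¹' N) := by
    intro p P J ε hP hJ hε hε8 hae
    exact hNC2 Γ μ p P J ε 1 N hΓ hμ hfl hP hJ hε hε8 one_pos le_rfl hN (Or.inl ⟨rfl, hN0⟩) hae
  have h2 := H _ h1
  have h3 : ν N = μ (pr Γ ⁻¹' N) := by
    rw [← hmap, Measure.map_apply hprc.measurable hN]
  have h4 : μ (pr Γ ⁻¹' N) = ENNReal.ofReal (μ.real (pr Γ ⁻¹' N)) := (ofReal_measureReal).symm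
  rw [h3, h4, show (1 / 2 : ENNReal) = ENNReal.ofReal (1 / 2) by
    rw [ENNReal.ofReal_div_of_pos (by norm_num), ENNReal.ofReal_one]
    norm_num]
  exact ENNReal.ofReal_le_ofReal (by linarith)

end Pool.Agent.HV
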