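import Pool.Agent.helper62.HF.SpecV
import Pool.Agent.helper84.HF.Defs

/-!
# MP_07c750, project HALF: the interface between the blocks H, II, W, G (helper84) and V (helper62)
-/

set_option autoImplicit false

open scoped MatrixGroups ContDiff Topology UpperHalfPlane ComplexConjugate
open UpperHalfPlane MeasureTheory Filter Set

namespace Pool.Agent.HV

open Pool.Agent.RS Pool.Agent.MS
open Pool.Agent.EN (XG MG mkX mkM fl pr)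

theorem glue_LFI (Γ : Subgroup SL(2, ℝ)) (A : Finset SL(2, ℝ)) (n b K W Θ : ℝ) (J0 : ℕ) (h : HF.LFI Γ A n b K W Θ)
    (hJ : 2 * (J0 : ℝ) ≤ W) (K' : ℝ) (hK : K' ≤ K) : LFI (FW Γ A b (Real.exp (-n))) K' J0 Θ := by
  intro g J a hc hj
  have h1 := h g J a (hc.trans hK) (by
    intro i hi j hj'
    have h2 := hj i hi
    have h3 := hj j hj'
    have h4 : |i - j| ≤ 2 * (J0 : ℤ) := by
      refine (abs_sub i j).trans ?_
      linarith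
    have h5 : |((i - j : ℤ) : ℝ)| ≤ 2 * (J0 : ℝ) := by
      rw [← Int.cast_abs]
      exact_mod_cast h4
    exact h5.trans hJ)
  have h2 : ∫ v in Icc (0 : ℝ) 1 ∩ {v | g * lM v ∈ FW Γ A b (Real.exp (-n))}, ‖∑ j ∈ J, a j * Complex.exp (((Real.pi * j * v / 2 : ℝ) : ℂ) * Complex.I)‖ ^ 2 =
      ∫ v in HF.YL Γ A n b g, ‖∑ j ∈ J, a j * Complex.exp (((Real.pi * j * v / 2 : ℝ) : ℂ) * Complex.I)‖ ^ 2 := by
    refine setIntegral_congr_set ?_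
    have h3 : ∀ᵐ v : ℝ ∂volume, v ≠ 1 := by
      rw [ae_iff]
      simp
    filter_upwards [h3] with v hv
    refine propext ?_
    constructor
    · rintro ⟨⟨h4, h5⟩, h6⟩
      exact ⟨h4, lt_of_le_of_ne h5 hv, h6⟩
    · rintro ⟨h4, h5, h6⟩
      exact ⟨⟨h4, h5.le⟩, h6⟩
  rw [h2]
  exact h1

theorem glue (hERG : HF.ERG_stmt) (Γ : Subgroup SL(2, ℝ)) (μ : Measure (XG Γ)) (Y : Set (XG Γ)) (hΓ : QU.SurfaceGroup Γ)
    (hμ : IsProbabilityMeasure μ) (hfl : ∀ t, μ.map (fl Γ t) = μ) (hY : HF.LowJ Γ μ (1 / 2) Y) :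
    ∃ a1 : ℝ, 0 < a1 ∧ ∀ a : ℝ, 0 < a → a ≤ a1 → HC Γ μ (μ.real Y) (μ.real Y) a := by
  obtain ⟨a1, ha1, H⟩ := hERG Γ μ Y hΓ hμ hfl hY
  refine ⟨a1, ha1, ?_⟩
  intro a ha haa Λ δ hΛ hδ
  obtain ⟨n, -, A, hA1, hA2⟩ := H a ha haa δ δ (4 * Λ) hδ hδ (by linarith) 0
  refine ⟨n, A, A, hA1, hA1, ?_⟩
  refine glue_LFI Γ A n (16 * a) _ _ δ _ hA2 ?_ _ ?_
  · have h1 : (1 : ℝ) ≤ Real.exp n := Real.one_le_exp (Nat.cast_nonneg n)
    have h2 : (⌈Λ * Real.exp n⌉₊ : ℝ) < Λ * Real.exp n + 1 := Nat.ceil_lt_add_one (by positivity)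
    nlinarith
  · have h3 : (0 : ℝ) ≤ A.card := Nat.cast_nonneg _
    nlinarith

/-- the final statement: `2 μ(Y) ≤ 1` for every set `Y` of local entropy at most `1/2` -/
theorem low_half (hERG : HF.ERG_stmt) (hHLF : HLF_stmt) (Γ : Subgroup SL(2, ℝ)) (F : Set ℍ) (r : ℕ → ℝ) (φ : ℕ → ℍ → ℂ) (ν : Measure (MG Γ))
    (hΓ : QU.SurfaceGroup Γ) (hF : IsFundamentalDomain Γ F (volume : Measure ℍ)) (hr : Tendsto r atTop atTop) (hφ : ∀ k, Eig Γ (r k) (φ k))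
    (hn : ∀ k, ∫ z in F, ‖φ k z‖ ^ 2 = 1) (hfin : IsFiniteMeasure ν)
    (hν : ∀ V : MG Γ → ℝ, Continuous V → Tendsto (fun k => ∫ z in F, V (mkM Γ z) * ‖φ k z‖ ^ 2) atTop (𝓝 (∫ x, V x ∂ν))) :
    ∃ μ : Measure (XG Γ), IsProbabilityMeasure μ ∧ (∀ t, μ.map (fl Γ t) = μ) ∧ μ.map (pr Γ) = ν ∧
      ∀ Y : Set (XG Γ), HF.LowJ Γ μ (1 / 2) Y → 2 * μ.real Y ≤ 1 := by
  obtain ⟨μ, hμ, hfl, hmap, a0, ha0, H⟩ := hHLF Γ F r φ ν hΓ hF hr hφ hn hfin hν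
  refine ⟨μ, hμ, hfl, hmap, ?_⟩
  intro Y hY
  obtain ⟨a1, ha1, H1⟩ := glue hERG Γ μ Y hΓ hμ hfl hY
  have h1 := H (min a0 a1) (lt_min ha0 ha1) (min_le_left _ _) (μ.real Y) (μ.real Y) measureReal_nonneg measureReal_le_one measureReal_nonneg
    measureReal_le_one (H1 (min a0 a1) (lt_min ha0 ha1) (min_le_right _ _))
  linarith

end Pool.Agent.HV
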